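import Pool.Agent.K1H93.PX.Chr
import Pool.Agent.K1H93.PY.Wlk

/-!
# The average over the characters and the shifts
-/

set_option autoImplicit false

namespace Pool.Agent.K1H93.PY

open Finset Matrix Pool.Agent.K1H93.PG
open Pool.Agent.K1H93.PX (pr orth roots_le)

variable {p : ℕ} [hp : Fact p.Prime]

variable {κ : Type} [Fintype κ] [DecidableEq κ]

/-- the trace for the character `χ` and the shift `x` -/
noncomputable def TT (v : κ → κ → ZMod p) (s : ℕ) (χ : DirichletCharacter ℂ p) (x : ZMod p) : ℝ :=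
  ‖Matrix.trace ((MX v (fun y => χ y) x * (MX v (fun y => χ y) x)ᴴ) ^ (s + 1))‖

theorem sum_TT (v : κ → κ → ZMod p) (s : ℕ) : ∑ χ : DirichletCharacter ℂ p, ∑ x, TT v s χ x =
    ((p - 1 : ℕ) : ℝ) * ∑ w : Wk κ (s + 1), ((univ.filter fun x : ZMod p =>
      pr x (fl v (s + 1) (st w) w) = pr x (bl v (s + 1) w) ∧ pr x (bl v (s + 1) w) ≠ 0).card : ℝ) := by
  have h : ((∑ χ : DirichletCharacter ℂ p, ∑ x, TT v s χ x : ℝ) : ℂ) =
      ((((p - 1 : ℕ) : ℝ) * ∑ w : Wk κ (s + 1), ((univ.filter fun x : ZMod p =>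
      pr x (fl v (s + 1) (st w) w) = pr x (bl v (s + 1) w) ∧ pr x (bl v (s + 1) w) ≠ 0).card : ℝ) : ℝ) : ℂ) := by
    push_cast
    calc ∑ χ : DirichletCharacter ℂ p, ∑ x, ((TT v s χ x : ℝ) : ℂ)
        = ∑ χ : DirichletCharacter ℂ p, ∑ x, ∑ w : Wk κ (s + 1),
            χ (pr x (fl v (s + 1) (st w) w)) * star (χ (pr x (bl v (s + 1) w))) := by
          refine sum_congr rfl fun χ _ => sum_congr rfl fun x _ => ?_
          unfold TT
          rw [← trace_real, trace_eq v (fun y => χ y) x (map_one χ) (fun a b => map_mul χ a b)]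
      _ = ∑ w : Wk κ (s + 1), ∑ x, ∑ χ : DirichletCharacter ℂ p,
            χ (pr x (fl v (s + 1) (st w) w)) * star (χ (pr x (bl v (s + 1) w))) := by
          rw [sum_comm]
          rw [sum_congr rfl fun x _ => sum_comm]
          rw [sum_comm]
      _ = ∑ w : Wk κ (s + 1), ((p - 1 : ℕ) : ℂ) * ((univ.filter fun x : ZMod p =>
      pr x (fl v (s + 1) (st w) w) = pr x (bl v (s + 1) w) ∧ pr x (bl v (s + 1) w) ≠ 0).card : ℂ) := by
          refine sum_congr rfl fun w _ => ?_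
          simp only [orth]
          rw [← sum_filter, sum_const, nsmul_eq_mul, mul_comm]
      _ = _ := by rw [mul_sum]
  exact_mod_cast h

theorem sum_TT_le (v : κ → κ → ZMod p) (hv1 : ∀ a b b', v a b = v a b' → b = b')
    (hv2 : ∀ a a' b, v a b = v a' b → a = a') (T : Finset (ZMod p))
    (hT : ∀ a b, v a b ∈ T) (s : ℕ) :
    ∑ χ : DirichletCharacter ℂ p, ∑ x, TT v s χ x ≤
      p * (p * ((s + 1 : ℝ) ^ (s + 1) * (Fintype.card κ * (T.card : ℝ) ^ (s + 1))) +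
        (s + 1) * (Fintype.card κ : ℝ) ^ (2 * (s + 1))) := by
  classical
  rw [sum_TT]
  have hp1 : ((p - 1 : ℕ) : ℝ) ≤ p := by exact_mod_cast Nat.sub_le p 1
  refine mul_le_mul hp1 ?_ (sum_nonneg fun w _ => Nat.cast_nonneg _) (Nat.cast_nonneg _)
  set B : Finset (Wk κ (s + 1)) :=
    univ.filter fun w : Wk κ (s + 1) => ∀ l ∈ bl v (s + 1) w, l ∈ fl v (s + 1) (st w) w with hB
  have h1 : ∀ w : Wk κ (s + 1), ((univ.filter fun x : ZMod p =>
      pr x (fl v (s + 1) (st w) w) = pr x (bl v (s + 1) w) ∧ pr x (bl v (s + 1) w) ≠ 0).card : ℝ) ≤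
      (if w ∈ B then (p : ℝ) else 0) + (s + 1) := by
    intro w
    by_cases hw : w ∈ B
    · rw [if_pos hw]
      have : (univ.filter fun x : ZMod p =>
        pr x (fl v (s + 1) (st w) w) = pr x (bl v (s + 1) w) ∧ pr x (bl v (s + 1) w) ≠ 0).card ≤ p := by
        refine (card_le_univ _).trans ?_
        rw [ZMod.card]
      have h2 : ((univ.filter fun x : ZMod p =>
        pr x (fl v (s + 1) (st w) w) = pr x (bl v (s + 1) w) ∧ pr x (bl v (s + 1) w) ≠ 0).card : ℝ) ≤ p := by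
        exact_mod_cast this
      have h3 : (0 : ℝ) ≤ s + 1 := by positivity
      linarith
    · rw [if_neg hw, zero_add]
      rw [hB, mem_filter] at hw
      push Not at hw
      have hw' : ¬ ∀ l ∈ bl v (s + 1) w, l ∈ fl v (s + 1) (st w) w := by
        intro h
        obtain ⟨l, hl, hl'⟩ := hw (mem_univ _)
        exact hl' (h l hl)
      have h4 := roots_le (fl v (s + 1) (st w) w) (bl v (s + 1) w) (s + 1) (length_fl v _ _ _).le
        (length_bl v _ _).le hw'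
      have h5 : (univ.filter fun x : ZMod p =>
        pr x (fl v (s + 1) (st w) w) = pr x (bl v (s + 1) w) ∧ pr x (bl v (s + 1) w) ≠ 0).card ≤ s + 1 := by
        refine (card_le_card fun x hx => ?_).trans h4
        rw [mem_filter] at hx ⊢
        exact ⟨hx.1, hx.2.1⟩
      exact_mod_cast h5
  refine (sum_le_sum fun w _ => h1 w).trans ?_
  rw [sum_add_distrib, sum_const, nsmul_eq_mul, card_univ, card_Wk, ← sum_filter, sum_const, nsmul_eq_mul]
  have h6 : ((univ.filter fun w => w ∈ B).card : ℝ) ≤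
      (s + 1 : ℝ) ^ (s + 1) * (Fintype.card κ * (T.card : ℝ) ^ (s + 1)) := by
    have h7 : B.card ≤ (s + 1) ^ (s + 1) * (Fintype.card κ * T.card ^ (s + 1)) := by
      rw [hB]
      convert card_bad v hv1 hv2 T hT s
    rw [filter_univ_mem]
    exact_mod_cast h7
  have h8 : (0 : ℝ) ≤ p := Nat.cast_nonneg _
  have h9 := mul_le_mul_of_nonneg_right h6 h8
  push_cast
  nlinarith [h9]

/-- a large form gives a large trace -/
theorem large (v : κ → κ → ZMod p) (s : ℕ) (χ : DirichletCharacter ℂ p) (x : ZMod p) (f g : κ → ℂ) (Λ : ℝ) (hΛ : 0 ≤ Λ)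
    (h : Λ * (Real.sqrt (∑ a, ‖f a‖ ^ 2) * Real.sqrt (∑ b, ‖g b‖ ^ 2)) < ‖∑ a, ∑ b, f a * g b * χ (x + v a b)‖) :
    Λ ^ (2 * (s + 1)) ≤ TT v s χ x := by
  have h1 := form_le v (fun y => χ y) x f g s
  set Fs := ∑ a, ‖f a‖ ^ 2 with hF
  set Gs := ∑ b, ‖g b‖ ^ 2 with hG
  have hF0 : 0 ≤ Fs := sum_nonneg fun _ _ => by positivity
  have hG0 : 0 ≤ Gs := sum_nonneg fun _ _ => by positivity
  have h2 : Λ ^ (2 * (s + 1)) * (Fs ^ (s + 1) * Gs ^ (s + 1)) <
      ‖∑ a, ∑ b, f a * g b * χ (x + v a b)‖ ^ (2 * (s + 1)) := by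
    have h3 := pow_lt_pow_left₀ h (by positivity) (n := 2 * (s + 1)) (by omega)
    refine lt_of_eq_of_lt ?_ h3
    rw [mul_pow, mul_pow, pow_mul (Real.sqrt Fs), pow_mul (Real.sqrt Gs), Real.sq_sqrt hF0, Real.sq_sqrt hG0]
  have h4 : Λ ^ (2 * (s + 1)) * (Fs ^ (s + 1) * Gs ^ (s + 1)) < Fs ^ (s + 1) * Gs ^ (s + 1) * TT v s χ x :=
    lt_of_lt_of_le h2 h1
  have h5 : 0 < Fs ^ (s + 1) * Gs ^ (s + 1) := by
    rcases (by positivity : (0 : ℝ) ≤ Fs ^ (s + 1) * Gs ^ (s + 1)).lt_or_eq with h6 | h6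
    · exact h6
    · rw [← h6] at h4; simp at h4
  rw [mul_comm] at h4
  exact (lt_of_mul_lt_mul_left h4 h5.le).le

end Pool.Agent.K1H93.PY
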