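import Pool.Agent.K1H93.PY.Blk
import Pool.Agent.H510R2.Div

/-!
# The theorem for all sets of nonzero residues and almost all characters
-/

set_option autoImplicit false

namespace Pool.Agent.K1H93.PY

open Finset
open scoped Pointwise

theorem part1 (s p : ℕ) (hp : p.Prime) (P : Finset (ZMod p)ˣ) (hP : P.Nonempty) (κ K : ℝ)
    (hκ : ((P * P).card : ℝ) ≤ κ * P.card) (hps : p ≤ P.card ^ s) (hK : 0 < K) :
    ∃ E : Finset (DirichletCharacter ℂ p),
      (E.card : ℝ) ≤ ((s + 1) ^ (s + 1) + (s + 1)) * κ ^ (4 * s + 5) * K ^ (2 * (s + 1)) * p / P.card ∧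
      ∀ χ ∉ E, ∀ (A B : Finset (ZMod p)ˣ) (f g : (ZMod p)ˣ → ℂ),
        ‖∑ a ∈ A, ∑ b ∈ B, f a * g b * χ ((a : ZMod p) + (b : ZMod p))‖ ≤
          K⁻¹ * (Real.sqrt (((A * P).card : ℝ) * ∑ a ∈ A, ‖f a‖ ^ 2) *
            Real.sqrt (((B * P).card : ℝ) * ∑ b ∈ B, ‖g b‖ ^ 2)) := by
  classical
  have : Fact p.Prime := ⟨hp⟩
  refine ⟨univ.filter fun χ => Exc P (P.card / K) χ, ?_, ?_⟩
  · exact card_exc s hP hκ hps hK _ fun χ hχ => (mem_filter.1 hχ).2
  · intro χ hχ A B f g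
    have h : ¬ Exc P (P.card / K) χ := fun h => hχ (mem_filter.2 ⟨mem_univ _, h⟩)
    exact all_sets hP hK h A B f g

/-- the elements with `d`-th power one -/
def Pd (p d : ℕ) [Fact p.Prime] : Finset (ZMod p)ˣ := univ.filter fun u => u ^ d = 1

theorem Pd_eq {p : ℕ} [Fact p.Prime] (H : Subgroup (ZMod p)ˣ) :
    ((Pd p (Nat.card H) : Finset (ZMod p)ˣ) : Set (ZMod p)ˣ) = H := by
  classical
  have h0 : 0 < Nat.card H := Nat.card_pos
  have h1 : (univ.filter fun u : (ZMod p)ˣ => u ∈ H) ⊆ Pd p (Nat.card H) := by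
    intro u hu
    rw [mem_filter] at hu
    rw [Pd, mem_filter]
    refine ⟨mem_univ _, ?_⟩
    have h := pow_card_eq_one' (x := (⟨u, hu.2⟩ : H))
    have h2 : (((⟨u, hu.2⟩ : H) ^ Nat.card H : H) : (ZMod p)ˣ) = ((1 : H) : (ZMod p)ˣ) := by rw [h]
    rw [Subgroup.coe_pow, Subgroup.coe_one] at h2
    exact h2
  have h2 : (Pd p (Nat.card H)).card ≤ Nat.card H := IsCyclic.card_pow_eq_one_le h0
  have h3 : (univ.filter fun u : (ZMod p)ˣ => u ∈ H).card = Nat.card H := by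
    rw [Nat.card_eq_fintype_card, Fintype.card_subtype]
  have h4 := eq_of_subset_of_card_le h1 (by rw [h3]; exact h2)
  rw [← h4]
  ext u
  simp

theorem part2 (ε η : ℝ) (hε : 0 < ε) (hη : 0 < η) : ∃ τ : ℝ, 0 < τ ∧ ∃ p₀ : ℕ, ∀ p : ℕ, p.Prime → p₀ ≤ p →
    ∃ E : Finset (DirichletCharacter ℂ p), (E.card : ℝ) ≤ (p : ℝ) ^ (1 - ε + η) ∧
      ∀ χ ∉ E, ∀ H : Subgroup (ZMod p)ˣ, (p : ℝ) ^ ε ≤ Nat.card H → ∀ A B : Finset (ZMod p)ˣ,
        (((A : Set (ZMod p)ˣ) * (H : Set (ZMod p)ˣ)).ncard : ℝ) ≤ (p : ℝ) ^ τ * A.card →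
        (((B : Set (ZMod p)ˣ) * (H : Set (ZMod p)ˣ)).ncard : ℝ) ≤ (p : ℝ) ^ τ * B.card →
          ‖∑ a ∈ A, ∑ b ∈ B, χ ((a : ZMod p) + (b : ZMod p))‖ ≤ (p : ℝ) ^ (-τ) * (A.card * B.card) := by
  classical
  set s : ℕ := ⌈1 / ε⌉₊ with hs
  have hs1 : 1 ≤ ε * s := by
    have h := Nat.le_ceil (1 / ε)
    rw [← hs] at h
    calc (1 : ℝ) = ε * (1 / ε) := by field_simp
      _ ≤ ε * s := mul_le_mul_of_nonneg_left h hε.le
  set τ : ℝ := η / (16 * (s + 1)) with hτ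
  have hτ0 : 0 < τ := by positivity
  obtain ⟨C0, hC0, hdiv⟩ := Pool.Agent.H510R2.divisor_bound (η / 4) (by positivity)
  set C1 : ℝ := ((s + 1 : ℝ) ^ (s + 1) + (s + 1)) with hC1
  have hC10 : 0 < C1 := by positivity
  set C : ℝ := C0 * C1 with hC
  have hCpos : 0 < C := by positivity
  refine ⟨τ, hτ0, ⌈C ^ (2 / η)⌉₊ + 2, fun p hp hp0 => ?_⟩
  have : Fact p.Prime := ⟨hp⟩
  have hp1 : (1 : ℝ) ≤ p := by exact_mod_cast hp.one_lt.le
  have hpp : (0 : ℝ) < p := by linarith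
  have hpC : C ≤ (p : ℝ) ^ (η / 2) := by
    have h1 : C ^ (2 / η) ≤ p := by
      refine (Nat.le_ceil _).trans ?_
      exact_mod_cast (by omega : ⌈C ^ (2 / η)⌉₊ ≤ p)
    have h2 := Real.rpow_le_rpow (by positivity) h1 (by positivity : (0 : ℝ) ≤ η / 2)
    rw [← Real.rpow_mul hCpos.le] at h2
    have h3 : 2 / η * (η / 2) = 1 := by field_simp
    rwa [h3, Real.rpow_one] at h2
  have hK : 0 < (p : ℝ) ^ (2 * τ) := by positivity
  -- the exceptional set of each order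
  have hex : ∀ d : ℕ, ∃ E : Finset (DirichletCharacter ℂ p), (p : ℝ) ^ ε ≤ (Pd p d).card →
      (E.card : ℝ) ≤ C1 * (p : ℝ) ^ (1 - ε + η / 4) ∧
      ∀ χ ∉ E, ∀ (A B : Finset (ZMod p)ˣ) (f g : (ZMod p)ˣ → ℂ),
        ‖∑ a ∈ A, ∑ b ∈ B, f a * g b * χ ((a : ZMod p) + (b : ZMod p))‖ ≤
          ((p : ℝ) ^ (2 * τ))⁻¹ * (Real.sqrt (((A * Pd p d).card : ℝ) * ∑ a ∈ A, ‖f a‖ ^ 2) *
            Real.sqrt (((B * Pd p d).card : ℝ) * ∑ b ∈ B, ‖g b‖ ^ 2)) := by
    intro d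
    by_cases hd : (p : ℝ) ^ ε ≤ (Pd p d).card
    · have hne : (Pd p d).Nonempty := ⟨1, by rw [Pd, mem_filter]; exact ⟨mem_univ _, one_pow d⟩⟩
      have hPP : ((Pd p d * Pd p d).card : ℝ) ≤ 1 * (Pd p d).card := by
        rw [one_mul]
        have h1 : Pd p d * Pd p d ⊆ Pd p d := by
          intro x hx
          rw [mem_mul] at hx
          obtain ⟨a, ha, b, hb, rfl⟩ := hx
          rw [Pd, mem_filter] at ha hb ⊢
          exact ⟨mem_univ _, by rw [mul_pow, ha.2, hb.2, one_mul]⟩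
        exact_mod_cast card_le_card h1
      have hps : p ≤ (Pd p d).card ^ s := by
        have h1 : (p : ℝ) ≤ ((Pd p d).card : ℝ) ^ s := by
          calc (p : ℝ) = (p : ℝ) ^ (1 : ℝ) := (Real.rpow_one _).symm
            _ ≤ (p : ℝ) ^ (ε * s) := Real.rpow_le_rpow_of_exponent_le hp1 hs1
            _ = ((p : ℝ) ^ ε) ^ s := by rw [Real.rpow_mul hpp.le, Real.rpow_natCast]
            _ ≤ _ := pow_le_pow_left₀ (by positivity) hd s
        exact_mod_cast h1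
      obtain ⟨E, hE, hmain⟩ := part1 s p hp (Pd p d) hne 1 ((p : ℝ) ^ (2 * τ)) hPP hps hK
      refine ⟨E, fun _ => ⟨hE.trans ?_, hmain⟩⟩
      have h1 : ((p : ℝ) ^ (2 * τ)) ^ (2 * (s + 1)) = (p : ℝ) ^ (η / 4) := by
        rw [← Real.rpow_natCast, ← Real.rpow_mul hpp.le]
        congr 1
        rw [hτ]
        push_cast
        field_simp
        ring
      rw [h1, one_pow, mul_one]
      have hcp : (0 : ℝ) < (p : ℝ) ^ ε := by positivity
      calc ((s + 1 : ℝ) ^ (s + 1) + (s + 1)) * (p : ℝ) ^ (η / 4) * p / (Pd p d).card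
          ≤ ((s + 1 : ℝ) ^ (s + 1) + (s + 1)) * (p : ℝ) ^ (η / 4) * p / (p : ℝ) ^ ε := by gcongr
        _ = C1 * (p : ℝ) ^ (1 - ε + η / 4) := by
          rw [hC1, mul_assoc, mul_div_assoc]
          congr 1
          rw [← Real.rpow_add_one hpp.ne', ← Real.rpow_sub hpp]
          congr 1
          ring
    · exact ⟨∅, fun h => absurd h hd⟩
  choose Ed hEd using hex
  set Dv : Finset ℕ := (p - 1).divisors.filter fun d => (p : ℝ) ^ ε ≤ (Pd p d).card with hDv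
  refine ⟨Dv.biUnion Ed, ?_, ?_⟩
  · have h1 : ((Dv.biUnion Ed).card : ℝ) ≤ ∑ d ∈ Dv, ((Ed d).card : ℝ) := by
      exact_mod_cast card_biUnion_le
    have h2 : ∑ d ∈ Dv, ((Ed d).card : ℝ) ≤ ∑ d ∈ Dv, C1 * (p : ℝ) ^ (1 - ε + η / 4) :=
      sum_le_sum fun d hd => (hEd d (mem_filter.1 hd).2).1
    have h3 : (Dv.card : ℝ) ≤ C0 * (p : ℝ) ^ (η / 4) := by
      have h4 : (Dv.card : ℝ) ≤ (p - 1).divisors.card := by exact_mod_cast card_filter_le _ _
      have h5 := hdiv (p - 1) (by have := hp.two_le; omega)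
      refine h4.trans (h5.trans (mul_le_mul_of_nonneg_left ?_ hC0.le))
      apply Real.rpow_le_rpow (Nat.cast_nonneg _) _ (by positivity)
      exact_mod_cast Nat.sub_le p 1
    rw [sum_const, nsmul_eq_mul] at h2
    refine h1.trans (h2.trans ?_)
    calc (Dv.card : ℝ) * (C1 * (p : ℝ) ^ (1 - ε + η / 4))
        ≤ (C0 * (p : ℝ) ^ (η / 4)) * (C1 * (p : ℝ) ^ (1 - ε + η / 4)) :=
          mul_le_mul_of_nonneg_right h3 (by positivity)
      _ = C * (p : ℝ) ^ (1 - ε + η / 2) := by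
          have : (p : ℝ) ^ (1 - ε + η / 2) = (p : ℝ) ^ (η / 4) * (p : ℝ) ^ (1 - ε + η / 4) := by
            rw [← Real.rpow_add hpp]
            congr 1
            ring
          rw [this, hC]
          ring
      _ ≤ (p : ℝ) ^ (η / 2) * (p : ℝ) ^ (1 - ε + η / 2) := mul_le_mul_of_nonneg_right hpC (by positivity)
      _ = (p : ℝ) ^ (1 - ε + η) := by
          rw [← Real.rpow_add hpp]
          congr 1
          ring
  · intro χ hχ H hH A B hA hB
    set d : ℕ := Nat.card H with hd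
    have hPH : ((Pd p d : Finset (ZMod p)ˣ) : Set (ZMod p)ˣ) = H := Pd_eq H
    have hcard : (Pd p d).card = d := by
      have h1 : ((Pd p d : Finset (ZMod p)ˣ) : Set (ZMod p)ˣ).ncard = (H : Set (ZMod p)ˣ).ncard := by rw [hPH]
      rw [Set.ncard_coe_finset] at h1
      rw [h1]
      rfl
    have hdv : d ∈ Dv := by
      rw [hDv, mem_filter, Nat.mem_divisors]
      refine ⟨⟨?_, ?_⟩, ?_⟩
      · have h1 := Subgroup.card_subgroup_dvd_card H
        rw [Nat.card_eq_fintype_card (α := (ZMod p)ˣ), ZMod.card_units] at h1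
        exact h1
      · have := hp.two_le
        omega
      · rw [hcard]
        exact hH
    have hχ' : χ ∉ Ed d := fun h => hχ (mem_biUnion.2 ⟨d, hdv, h⟩)
    have hcv : ∀ X : Finset (ZMod p)ˣ, (X * Pd p d).card = ((X : Set (ZMod p)ˣ) * (H : Set (ZMod p)ˣ)).ncard := by
      intro X
      rw [← hPH, ← Finset.coe_mul, Set.ncard_coe_finset]
    have hA' : ((A * Pd p d).card : ℝ) ≤ (p : ℝ) ^ τ * A.card := by rw [hcv]; exact hA
    have hB' : ((B * Pd p d).card : ℝ) ≤ (p : ℝ) ^ τ * B.card := by rw [hcv]; exact hB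
    have h := (hEd d (mem_filter.1 hdv).2).2 χ hχ' A B (fun _ => 1) (fun _ => 1)
    simp only [one_mul, norm_one, one_pow, sum_const, nsmul_eq_mul, mul_one] at h
    refine h.trans ?_
    have h1 : ∀ (a c : ℝ), 0 ≤ a → c ≤ (p : ℝ) ^ τ * a → Real.sqrt (c * a) ≤ (p : ℝ) ^ (τ / 2) * a := by
      intro a c ha hc
      apply Real.sqrt_le_iff.2
      refine ⟨by positivity, ?_⟩
      calc c * a ≤ ((p : ℝ) ^ τ * a) * a := mul_le_mul_of_nonneg_right hc ha
        _ = ((p : ℝ) ^ (τ / 2) * a) ^ 2 := by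
          have : (p : ℝ) ^ τ = ((p : ℝ) ^ (τ / 2)) ^ 2 := by
            rw [← Real.rpow_natCast, ← Real.rpow_mul hpp.le]
            congr 1
            push_cast
            ring
          rw [this]
          ring
    have h2 := h1 A.card _ (Nat.cast_nonneg _) hA'
    have h3 := h1 B.card _ (Nat.cast_nonneg _) hB'
    calc ((p : ℝ) ^ (2 * τ))⁻¹ * (Real.sqrt (((A * Pd p d).card : ℝ) * A.card) *
          Real.sqrt (((B * Pd p d).card : ℝ) * B.card))
        ≤ ((p : ℝ) ^ (2 * τ))⁻¹ * (((p : ℝ) ^ (τ / 2) * A.card) * ((p : ℝ) ^ (τ / 2) * B.card)) := by gcongr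
      _ = (p : ℝ) ^ (-τ) * (A.card * B.card) := by
        rw [← Real.rpow_neg hpp.le]
        have : (p : ℝ) ^ (-(2 * τ)) * ((p : ℝ) ^ (τ / 2) * (p : ℝ) ^ (τ / 2)) = (p : ℝ) ^ (-τ) := by
          rw [← Real.rpow_add hpp, ← Real.rpow_add hpp]
          congr 1
          ring
        rw [← this]
        ring

end Pool.Agent.K1H93.PY
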